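import Pool.Agent.Work.MP_c4093f_al.Z.Final

/-!
The isolation condition is not preserved by elementary duality: there is a von Neumann regular
ring `A` whose right Ziegler spectrum `X` satisfies the isolation condition while `DX`, the left
spectrum, does not.
-/

namespace Pool.Agent.Results.MP_c4093f_al.Counterexample
open Pool.Agent.Work.MP_c4093f_al.Z

theorem result : ∃ (A : Type) (_ : Ring A), (∀ a : A, ∃ g, a * g * a = a) ∧
    ∃ X : Set (Zg Aᵐᵒᵖ), X = Set.univ ∧ DualSet X = Set.univ ∧ IsClosed X ∧ IC X ∧
      ¬ IC (DualSet X) :=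
  final

end Pool.Agent.Results.MP_c4093f_al.Counterexample
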